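import Pool.Agent.W770.PC.Stms

set_option autoImplicit false

/-!
Elementary facts on partial derivatives.
-/

open MeasureTheory Set Filter Topology
open scoped ENNReal NNReal

namespace Pool.Agent.W770.PC

theorem hasDerivAt_d1' {f : ℝ × ℝ → ℝ} (hf : Differentiable ℝ f) (y : ℝ × ℝ) :
    HasDerivAt (fun u => f (u, y.2)) (fderiv ℝ f y (1, 0)) y.1 := by
  have h1 : HasFDerivAt f (fderiv ℝ f y) ((y.1, y.2) : ℝ × ℝ) := (hf y).hasFDerivAt
  have h2 : HasDerivAt (fun u : ℝ => ((u, y.2) : ℝ × ℝ)) (1, 0) y.1 :=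
    (hasDerivAt_id _).prodMk (hasDerivAt_const _ _)
  exact h1.comp_hasDerivAt y.1 h2

theorem hasDerivAt_d2' {f : ℝ × ℝ → ℝ} (hf : Differentiable ℝ f) (y : ℝ × ℝ) :
    HasDerivAt (fun v => f (y.1, v)) (fderiv ℝ f y (0, 1)) y.2 := by
  have h1 : HasFDerivAt f (fderiv ℝ f y) ((y.1, y.2) : ℝ × ℝ) := (hf y).hasFDerivAt
  have h2 : HasDerivAt (fun v : ℝ => ((y.1, v) : ℝ × ℝ)) (0, 1) y.2 :=
    (hasDerivAt_const _ _).prodMk (hasDerivAt_id _)
  exact h1.comp_hasDerivAt y.2 h2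

theorem d1_eq' {f : ℝ × ℝ → ℝ} (hf : Differentiable ℝ f) :
    d1 f = fun y => fderiv ℝ f y (1, 0) := funext fun y => (hasDerivAt_d1' hf y).deriv

theorem d2_eq' {f : ℝ × ℝ → ℝ} (hf : Differentiable ℝ f) :
    d2 f = fun y => fderiv ℝ f y (0, 1) := funext fun y => (hasDerivAt_d2' hf y).deriv

theorem sm_diff {f : ℝ × ℝ → ℝ} (hf : ContDiff ℝ (⊤ : ℕ∞) f) : Differentiable ℝ f :=
  hf.differentiable (by simp)

theorem sm_fd {f : ℝ × ℝ → ℝ} (hf : ContDiff ℝ (⊤ : ℕ∞) f) :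
    ContDiff ℝ (⊤ : ℕ∞) (fderiv ℝ f) := hf.fderiv_right (by simp)

theorem sm_d1 {f : ℝ × ℝ → ℝ} (hf : ContDiff ℝ (⊤ : ℕ∞) f) : ContDiff ℝ (⊤ : ℕ∞) (d1 f) := by
  rw [d1_eq' (sm_diff hf)]
  exact (sm_fd hf).clm_apply contDiff_const

theorem sm_d2 {f : ℝ × ℝ → ℝ} (hf : ContDiff ℝ (⊤ : ℕ∞) f) : ContDiff ℝ (⊤ : ℕ∞) (d2 f) := by
  rw [d2_eq' (sm_diff hf)]
  exact (sm_fd hf).clm_apply contDiff_const

theorem sm_symm {f : ℝ × ℝ → ℝ} (hf : ContDiff ℝ (⊤ : ℕ∞) f) (y : ℝ × ℝ) :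
    d2 (d1 f) y = d1 (d2 f) y := by
  have hd : Differentiable ℝ (fderiv ℝ f) := (sm_fd hf).differentiable (by simp)
  have h1 : ∀ v w : ℝ × ℝ, fderiv ℝ (fun z => fderiv ℝ f z v) y w = fderiv ℝ (fderiv ℝ f) y w v := by
    intro v w
    have h2 : HasFDerivAt (fun z => fderiv ℝ f z v)
        ((ContinuousLinearMap.apply ℝ ℝ v).comp (fderiv ℝ (fderiv ℝ f) y)) y :=
      (ContinuousLinearMap.apply ℝ ℝ v).hasFDerivAt.comp y (hd y).hasFDerivAt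
    rw [h2.fderiv]
    rfl
  have hs : IsSymmSndFDerivAt ℝ f y := by
    apply ContDiffAt.isSymmSndFDerivAt (n := (⊤ : ℕ∞)) hf.contDiffAt
    simp only [minSmoothness_of_isRCLikeNormedField]
    have h : ((2 : ℕ∞) : WithTop ℕ∞) ≤ ((⊤ : ℕ∞) : WithTop ℕ∞) := WithTop.coe_le_coe.mpr le_top
    exact h
  rw [d2_eq' (sm_diff (sm_d1 hf)), d1_eq' (sm_diff (sm_d2 hf)), d1_eq' (sm_diff hf),
    d2_eq' (sm_diff hf)]
  simp only
  rw [h1, h1]
  exact hs _ _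

theorem der_thm : S_der := by
  intro f hf
  have hd := sm_diff hf
  have k1 : ∀ y : ℝ × ℝ, HasDerivAt (fun u => f (u, y.2)) (d1 f y) y.1 := fun y => by
    rw [d1_eq' hd]; exact hasDerivAt_d1' hd y
  have k2 : ∀ y : ℝ × ℝ, HasDerivAt (fun v => f (y.1, v)) (d2 f y) y.2 := fun y => by
    rw [d2_eq' hd]; exact hasDerivAt_d2' hd y
  have c11 : Continuous (d1 (d1 f)) := (sm_d1 (sm_d1 hf)).continuous
  have c12 : Continuous (d1 (d2 f)) := (sm_d1 (sm_d2 hf)).continuous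
  have c22 : Continuous (d2 (d2 f)) := (sm_d2 (sm_d2 hf)).continuous
  refine ⟨sm_d1 hf, sm_d2 hf, k1, k2, ?_, sm_symm hf, ?_, ?_, ?_⟩
  · intro y
    have h1 : HasFDerivAt f (fderiv ℝ f y) y := (hd y).hasFDerivAt
    convert h1 using 1
    rw [d1_eq' hd, d2_eq' hd]
    ext
    · simp
    · simp
  · intro h hh t y
    have hdh := sm_diff hh
    constructor
    · have h1 : HasDerivAt (fun u => h (u, y.2)) (d1 h y) y.1 := by
        rw [d1_eq' hdh]; exact hasDerivAt_d1' hdh y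
      exact ((k1 y).add (h1.const_mul t)).deriv
    · have h1 : HasDerivAt (fun v => h (y.1, v)) (d2 h y) y.2 := by
        rw [d2_eq' hdh]; exact hasDerivAt_d2' hdh y
      exact ((k2 y).add (h1.const_mul t)).deriv
  · unfold hess
    exact (c11.abs.add c12.abs).add c22.abs
  · unfold det2
    exact (c11.mul c22).sub (c12.pow 2)

end Pool.Agent.W770.PC
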