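import Pool.Agent.W770.PC.Stms

set_option autoImplicit false

/-!
Smoothness and derivatives of the functions of the partition of unity.
-/

open MeasureTheory Set Filter Topology
open scoped ENNReal NNReal

namespace Pool.Agent.W215.PC

open Pool.Agent.W770.PC

theorem le_inf (j : ℕ) : ((j : ℕ∞) : WithTop ℕ∞) ≤ ((⊤ : ℕ∞) : WithTop ℕ∞) :=
  WithTop.coe_le_coe.mpr le_top

theorem iter_aff {F : ℝ → ℝ} (hF : ContDiff ℝ (⊤ : ℕ∞) F) (s c : ℝ) (j : ℕ) (u : ℝ) :
    iteratedDeriv j (fun u => F (s * u - c)) u = s ^ j * iteratedDeriv j F (s * u - c) := by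
  have hG : ContDiff ℝ (⊤ : ℕ∞) (fun x => F (x - c)) :=
    hF.comp (contDiff_id.sub contDiff_const)
  have hG' : ContDiff ℝ j (fun x => F (x - c)) := hG.of_le (le_inf j)
  have h1 := congrFun (iteratedDeriv_comp_const_mul hG' s) u
  simp only [iteratedDeriv_comp_sub_const] at h1
  exact h1

theorem bump_off (h1 : S_bump) (j : ℕ) (x : ℝ) (hx : 1 < |x|) : iteratedDeriv j bump x = 0 := by
  have h2 : bump =ᶠ[𝓝 x] (fun _ => (0 : ℝ)) := by
    have h3 : ∀ᶠ y : ℝ in 𝓝 x, 1 < |y| := continuous_abs.continuousAt.eventually (lt_mem_nhds hx)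
    filter_upwards [h3] with y hy
    exact h1.2.2.1 y hy.le
  rw [h2.iteratedDeriv_eq]
  exact iteratedDeriv_fun_const_zero

theorem card3 (M : ℕ) (X : ℝ) :
    ((Finset.range M).filter (fun k : ℕ => |X - k| ≤ 1)).card ≤ 3 := by
  classical
  set T := (Finset.range M).filter (fun k : ℕ => |X - k| ≤ 1) with hT
  rcases T.eq_empty_or_nonempty with h | h
  · rw [h]; simp
  · obtain ⟨m, hm, hmin⟩ : ∃ m ∈ T, ∀ k ∈ T, m ≤ k := ⟨T.min' h, T.min'_mem h, fun k hk => T.min'_le k hk⟩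
    have hsub : T ⊆ Finset.Icc m (m + 2) := by
      intro k hk
      rw [Finset.mem_Icc]
      refine ⟨hmin k hk, ?_⟩
      have h1 := (Finset.mem_filter.mp hk).2
      have h2 := (Finset.mem_filter.mp hm).2
      rw [abs_le] at h1 h2
      have : (k : ℝ) ≤ m + 2 := by linarith
      exact_mod_cast this
    calc T.card ≤ (Finset.Icc m (m + 2)).card := Finset.card_le_card hsub
      _ = 3 := by rw [Nat.card_Icc]; omega

theorem sum3 (h1 : S_bump) {B : ℝ} (hB0 : 0 ≤ B) (hB : ∀ j ≤ 3, ∀ x, |iteratedDeriv j bump x| ≤ B)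
    (j : ℕ) (hj : j ≤ 3) (M : ℕ) (X : ℝ) :
    ∑ k ∈ Finset.range M, |iteratedDeriv j bump (X - k)| ≤ 3 * B := by
  classical
  have h2 : ∑ k ∈ Finset.range M, |iteratedDeriv j bump (X - k)| =
      ∑ k ∈ (Finset.range M).filter (fun k : ℕ => |X - k| ≤ 1), |iteratedDeriv j bump (X - k)| := by
    symm
    apply Finset.sum_filter_of_ne
    intro k _ hk
    by_contra hc
    rw [not_le] at hc
    exact hk (by rw [bump_off h1 j _ hc, abs_zero])
  rw [h2]
  calc _ ≤ ∑ k ∈ (Finset.range M).filter (fun k : ℕ => |X - k| ≤ 1), B :=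
        Finset.sum_le_sum fun k _ => hB j hj _
    _ = ((Finset.range M).filter (fun k : ℕ => |X - k| ≤ 1)).card * B := by
        rw [Finset.sum_const, nsmul_eq_mul]
    _ ≤ 3 * B := by
        apply mul_le_mul_of_nonneg_right _ hB0
        exact_mod_cast card3 M X

theorem bump_abs (h1 : S_bump) (x : ℝ) : |bump x| = bump x := abs_of_nonneg (h1.1 x)

/-- the sum over a subset of the grid -/
theorem sum_grid (h1 : S_bump) {B : ℝ} (hB0 : 0 ≤ B)
    (hB : ∀ j ≤ 3, ∀ x, |iteratedDeriv j bump x| ≤ B) (j : ℕ) (hj : j ≤ 3) (a : ℕ)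
    (S : Finset (ℕ × ℕ)) (hS : S ⊆ grid a) (X Y : ℝ) :
    ∑ k ∈ S, |iteratedDeriv j bump (X - k.1)| * bump (Y - k.2) ≤ 3 * B ∧
    ∑ k ∈ S, |iteratedDeriv j bump (Y - k.2)| * bump (X - k.1) ≤ 3 * B := by
  have hn1 : ∀ k : ℕ × ℕ, 0 ≤ |iteratedDeriv j bump (X - k.1)| * bump (Y - k.2) :=
    fun k => mul_nonneg (abs_nonneg _) (h1.1 _)
  have hn2 : ∀ k : ℕ × ℕ, 0 ≤ |iteratedDeriv j bump (Y - k.2)| * bump (X - k.1) :=
    fun k => mul_nonneg (abs_nonneg _) (h1.1 _)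
  have hs := h1.2.2.2.2.2.1
  constructor
  · calc _ ≤ ∑ k ∈ grid a, |iteratedDeriv j bump (X - k.1)| * bump (Y - k.2) :=
          Finset.sum_le_sum_of_subset_of_nonneg hS fun k _ _ => hn1 k
      _ = (∑ k ∈ Finset.range (2 ^ a + 1), |iteratedDeriv j bump (X - k)|) *
            ∑ k ∈ Finset.range (2 ^ a + 1), bump (Y - k) := by
          rw [Finset.sum_mul_sum]
          exact Finset.sum_product _ _ _
      _ ≤ (3 * B) * 1 := mul_le_mul (sum3 h1 hB0 hB j hj _ X) (hs _ Y)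
          (Finset.sum_nonneg fun k _ => h1.1 _) (by positivity)
      _ = 3 * B := mul_one _
  · calc _ ≤ ∑ k ∈ grid a, |iteratedDeriv j bump (Y - k.2)| * bump (X - k.1) :=
          Finset.sum_le_sum_of_subset_of_nonneg hS fun k _ _ => hn2 k
      _ = (∑ k ∈ Finset.range (2 ^ a + 1), |iteratedDeriv j bump (Y - k)|) *
            ∑ k ∈ Finset.range (2 ^ a + 1), bump (X - k) := by
          rw [Finset.sum_mul_sum, Finset.sum_comm]
          exact Finset.sum_product _ _ _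
      _ ≤ (3 * B) * 1 := mul_le_mul (sum3 h1 hB0 hB j hj _ Y) (hs _ X)
          (Finset.sum_nonneg fun k _ => h1.1 _) (by positivity)
      _ = 3 * B := mul_one _

theorem sm_aff {F : ℝ → ℝ} (hF : ContDiff ℝ (⊤ : ℕ∞) F) (s c : ℝ) :
    ContDiff ℝ (⊤ : ℕ∞) (fun u => F (s * u - c)) :=
  hF.comp ((contDiff_const.mul contDiff_id).sub contDiff_const)

/-- derivatives of a sum of bump functions, first variable -/
theorem iter_sum1 (h1 : S_bump) (a : ℕ) (S : Finset (ℕ × ℕ)) (v : ℝ) (j : ℕ) (u : ℝ) :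
    iteratedDeriv j (fun u => ∑ k ∈ S, bet a k (u, v)) u =
      ∑ k ∈ S, (2 ^ a) ^ j * iteratedDeriv j bump (2 ^ a * u - k.1) * bump (2 ^ a * v - k.2) := by
  have hb := h1.2.2.2.1
  have h2 : ∀ k ∈ S, ContDiffAt ℝ j (fun u => bump (2 ^ a * u - k.1) * bump (2 ^ a * v - k.2)) u :=
    fun k _ => ((((sm_aff hb _ _).mul contDiff_const).of_le (le_inf j)).contDiffAt)
  have h3 : (fun u => ∑ k ∈ S, bet a k (u, v)) =
      fun u => ∑ k ∈ S, bump (2 ^ a * u - k.1) * bump (2 ^ a * v - k.2) := rfl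
  rw [h3, iteratedDeriv_fun_sum h2]
  refine Finset.sum_congr rfl fun k _ => ?_
  rw [iteratedDeriv_mul_const_field, iter_aff hb]

theorem iter_sum2 (h1 : S_bump) (a : ℕ) (S : Finset (ℕ × ℕ)) (u : ℝ) (j : ℕ) (v : ℝ) :
    iteratedDeriv j (fun v => ∑ k ∈ S, bet a k (u, v)) v =
      ∑ k ∈ S, (2 ^ a) ^ j * iteratedDeriv j bump (2 ^ a * v - k.2) * bump (2 ^ a * u - k.1) := by
  have hb := h1.2.2.2.1
  have h2 : ∀ k ∈ S, ContDiffAt ℝ j (fun v => bump (2 ^ a * v - k.2) * bump (2 ^ a * u - k.1)) v :=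
    fun k _ => ((((sm_aff hb _ _).mul contDiff_const).of_le (le_inf j)).contDiffAt)
  have h3 : (fun v => ∑ k ∈ S, bet a k (u, v)) =
      fun v => ∑ k ∈ S, bump (2 ^ a * v - k.2) * bump (2 ^ a * u - k.1) := by
    funext v
    exact Finset.sum_congr rfl fun k _ => mul_comm _ _
  rw [h3, iteratedDeriv_fun_sum h2]
  refine Finset.sum_congr rfl fun k _ => ?_
  rw [iteratedDeriv_mul_const_field, iter_aff hb]

theorem bd_sum (h1 : S_bump) {B : ℝ} (hB0 : 0 ≤ B)
    (hB : ∀ j ≤ 3, ∀ x, |iteratedDeriv j bump x| ≤ B) (j : ℕ) (hj : j ≤ 3) (a : ℕ)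
    (S : Finset (ℕ × ℕ)) (hS : S ⊆ grid a) (u v : ℝ) :
    |iteratedDeriv j (fun u => ∑ k ∈ S, bet a k (u, v)) u| ≤ 3 * B * (2 ^ a) ^ j ∧
    |iteratedDeriv j (fun v => ∑ k ∈ S, bet a k (u, v)) v| ≤ 3 * B * (2 ^ a) ^ j := by
  obtain ⟨g1, g2⟩ := sum_grid h1 hB0 hB j hj a S hS (2 ^ a * u) (2 ^ a * v)
  have hp : (0 : ℝ) ≤ (2 ^ a) ^ j := by positivity
  constructor
  · rw [iter_sum1 h1]
    calc _ ≤ ∑ k ∈ S, |(2 ^ a) ^ j * iteratedDeriv j bump (2 ^ a * u - k.1) *
            bump (2 ^ a * v - k.2)| := Finset.abs_sum_le_sum_abs _ _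
      _ = (2 ^ a) ^ j * ∑ k ∈ S, |iteratedDeriv j bump (2 ^ a * u - k.1)| *
            bump (2 ^ a * v - k.2) := by
          rw [Finset.mul_sum]
          refine Finset.sum_congr rfl fun k _ => ?_
          rw [abs_mul, abs_mul, bump_abs h1, abs_of_nonneg hp]
          ring
      _ ≤ (2 ^ a) ^ j * (3 * B) := mul_le_mul_of_nonneg_left g1 hp
      _ = _ := by ring
  · rw [iter_sum2 h1]
    calc _ ≤ ∑ k ∈ S, |(2 ^ a) ^ j * iteratedDeriv j bump (2 ^ a * v - k.2) *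
            bump (2 ^ a * u - k.1)| := Finset.abs_sum_le_sum_abs _ _
      _ = (2 ^ a) ^ j * ∑ k ∈ S, |iteratedDeriv j bump (2 ^ a * v - k.2)| *
            bump (2 ^ a * u - k.1) := by
          rw [Finset.mul_sum]
          refine Finset.sum_congr rfl fun k _ => ?_
          rw [abs_mul, abs_mul, bump_abs h1, abs_of_nonneg hp]
          ring
      _ ≤ (2 ^ a) ^ j * (3 * B) := mul_le_mul_of_nonneg_left g2 hp
      _ = _ := by ring

theorem sm_bet (h1 : S_bump) (a : ℕ) (k : ℕ × ℕ) : ContDiff ℝ (⊤ : ℕ∞) (bet a k) := by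
  have hb := h1.2.2.2.1
  have e1 : ContDiff ℝ (⊤ : ℕ∞) (fun y : ℝ × ℝ => bump (2 ^ a * y.1 - k.1)) :=
    (sm_aff hb _ _).comp contDiff_fst
  have e2 : ContDiff ℝ (⊤ : ℕ∞) (fun y : ℝ × ℝ => bump (2 ^ a * y.2 - k.2)) :=
    (sm_aff hb _ _).comp contDiff_snd
  exact e1.mul e2

theorem sm_Nf (h1 : S_bump) (g : ℝ × ℝ → ℝ) (a : ℕ) : ContDiff ℝ (⊤ : ℕ∞) (Nf g a) := by
  classical
  have : Nf g a = fun y => ∑ k ∈ (grid a).filter (fun k => 1 < NN g a k), bet a k y := by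
    funext y
    unfold Nf
    congr!
  rw [this]
  exact ContDiff.sum fun k _ => sm_bet h1 a k

theorem gg_thm (h1 : S_bump) (h2 : S_part) (h3 : S_prod) : S_gg := by
  classical
  obtain ⟨B, hB1, hB⟩ := h1.2.2.2.2.2.2
  have hB0 : 0 ≤ B := by linarith
  obtain ⟨C, hC1, hC⟩ := h3 (3 * B) (by linarith)
  refine ⟨sm_bet h1, ?_, ?_, C + B, by linarith, ?_⟩
  · intro g a
    exact contDiff_prod fun a' _ => sm_Nf h1 g a'
  · intro a k y hy
    unfold bet at hy
    constructor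
    · by_contra hc
      rw [not_lt] at hc
      exact hy (by rw [h1.2.2.1 _ hc, zero_mul])
    · by_contra hc
      rw [not_lt] at hc
      exact hy (by rw [h1.2.2.1 _ hc, mul_zero])
  · intro a j hj y
    have hp : (0 : ℝ) ≤ (2 ^ a) ^ j := by positivity
    refine ⟨fun k => ?_, fun g => ?_⟩
    · have e1 := iter_sum1 h1 a {k} y.2 j y.1
      have e2 := iter_sum2 h1 a {k} y.1 j y.2
      simp only [Finset.sum_singleton] at e1 e2
      have hle : ∀ x z : ℝ, |(2 ^ a) ^ j * iteratedDeriv j bump x * bump z| ≤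
          (C + B) * (2 ^ a) ^ j := by
        intro x z
        rw [abs_mul, abs_mul, bump_abs h1, abs_of_nonneg hp]
        calc (2 ^ a) ^ j * |iteratedDeriv j bump x| * bump z ≤ (2 ^ a) ^ j * B * 1 :=
              mul_le_mul (mul_le_mul_of_nonneg_left (hB j hj x) hp) (h1.2.1 z) (h1.1 z)
                (mul_nonneg hp hB0)
          _ ≤ (C + B) * (2 ^ a) ^ j := by nlinarith
      exact ⟨by rw [e1]; exact hle _ _, by rw [e2]; exact hle _ _⟩
    · have hN : ∀ (a' : ℕ) (y : ℝ × ℝ), Nf g a' y =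
          ∑ k ∈ (grid a').filter (fun k => 1 < NN g a' k), bet a' k y := by
        intro a' y
        unfold Nf
        congr!
      have hsub : ∀ a' : ℕ, (grid a').filter (fun k => 1 < NN g a' k) ⊆ grid a' :=
        fun a' => Finset.filter_subset _ _
      have hab : ∀ (a' : ℕ) (y : ℝ × ℝ), |Nf g a' y| ≤ 1 := by
        intro a' y
        obtain ⟨p1, p2⟩ := h2.2.1 a' y _ (hsub a')
        rw [hN, abs_le]
        constructor <;> linarith
      have f1 := hC (fun a' u => Nf g a' (u, y.2))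
        (fun a' => (sm_Nf h1 g a').comp (contDiff_id.prodMk contDiff_const))
        (fun a' u => hab a' _) (fun a' j hj u => by
          simp only [hN]
          exact (bd_sum h1 hB0 hB j hj a' _ (hsub a') u y.2).1) a j hj y.1
      have f2 := hC (fun a' v => Nf g a' (y.1, v))
        (fun a' => (sm_Nf h1 g a').comp (contDiff_const.prodMk contDiff_id))
        (fun a' u => hab a' _) (fun a' j hj v => by
          simp only [hN]
          exact (bd_sum h1 hB0 hB j hj a' _ (hsub a') y.1 v).2) a j hj y.2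
      have hle : C * (2 ^ a) ^ j ≤ (C + B) * (2 ^ a) ^ j := by nlinarith
      exact ⟨f1.trans hle, f2.trans hle⟩

end Pool.Agent.W215.PC
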